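import Pool.Agent.R413.SQ.Cor
import Pool.Agent.R413.SQ.Low2
import Pool.Agent.R413.SQ.Fin
import Pool.Agent.Y948.CQ.C2

/-!
# The 2-part of the leading-term formula for the quadratic twists of `X_0(49)` by all products of primes
# `≡ 1 mod 4`: the formula modulo two for all of them, the whole 2-part for the exact proportion

`D ≥ 1` runs over all squarefree numbers with all prime factors `≡ 1 mod 4` (inert or split in
`ℚ(√-7)`, in any number), `E_D` is the quadratic twist by `D` of
`X_0(49) : y² + x y = x³ - x² - 2 x - 1`. Let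
`z = (L(E_D, 1) / Ω) / (∏ c_p / #E_D(ℚ)_tors²)`, the quotient of the analytic constant of the formula in
rank zero by the algebraic one without `#Ш(E_D/ℚ)`. With no hypothesis on the rank or on `Ш`:
* for all `D` of the class `L(E_D, s)` is entire, the equation of `E_D` is minimal, `z` is integral at all
  the primes above two, and `z` is a unit at any given prime above two iff `E_D(ℚ)` is finite and
  `Ш(E_D/ℚ)[2] = 0`: this is the formula modulo two (helper428's `MP_4a9ea6_nt/TwoPartTwistsX49`);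
* among ALL the `D` of the class, the `D` for which the 2-part of the formula holds with `z` a unit, that
  is `L(E_D, 1) ≠ 0`, `E_D(ℚ)` is finite, `Ш(E_D/ℚ)[2^∞] = 0` and `z`, `1 / z` are integral at the primes
  above two, have exactly the proportion `c = ∏_{i ≥ 0} (1 - 2^{-(2i+1)}) = 0.4194...`;
* there are at least `a X / √(log X)` of them up to `X`, the order of magnitude of the class.

The counting is in `Pool/Agent/R413/SQ` (an adaptation of the project CQ of helpers 703, 710, 356, 839,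
948, 219, 657, 302, 697, 391, 488, 475, 362, 949, 405 and 514 to the full class of the primes
`1 mod 4`): the symmetric matrix over `𝔽₂` of the quadratic symbols of the split prime factors, with
arbitrary diagonal, is not singular with probability `c`.
-/

set_option autoImplicit false

open NumberField IsDedekindDomain WeierstrassCurve Filter Topology

namespace Pool.Agent.Results.MP_92892c_nt.FullClassTwoPartX49

open Pool.Agent.TH841.NF.D (Sha)
open Pool.Agent.Results.MP_4a9ea6_nt.TwoPartTwistsX49 (twist E MinimalAt nonsing c Tam cubic Omega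
  torsOrder anOrder TwoPart)

/-- the class: `D` is squarefree and all its prime factors are `≡ 1 mod 4` -/
def Family (D : ℕ) : Prop := Squarefree D ∧ ∀ p ∈ D.primeFactors, p % 4 = 1

/-- `E_D(ℚ)` is finite and `Ш(E_D/ℚ)` has no element of order two -/
def RankZeroShaTwo (D : ℕ) : Prop :=
  Finite (E D).toAffine.Point ∧ ∀ x : Sha (E D), 2 • x = 0 → x = 0

/-- The formula modulo two: the equation is minimal, `L(E_D, s)` has the entire continuation `Λ`, and for
the quotient `z = anOrder D (Λ 1)` of `L(E_D, 1) / Ω` by `∏ c_p / #E_D(ℚ)_tors²` and every valuation `v`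
of `ℂ` above two `v z ≤ 1`, with equality iff `E_D(ℚ)` is finite and `Ш(E_D/ℚ)[2] = 0`. -/
def FormulaModTwo (D : ℕ) : Prop :=
  (∀ v : HeightOneSpectrum (𝓞 ℚ), MinimalAt (E D) v) ∧
  ∃ Λ : ℂ → ℂ, Differentiable ℂ Λ ∧ (∀ s : ℂ, 2 < s.re → Λ s = (E D).LSeries s) ∧
    ∀ (Γ : Type) [LinearOrderedCommGroupWithZero Γ] (v : Valuation ℂ Γ), v 2 < 1 →
      v (anOrder D (Λ 1)) ≤ 1 ∧ (v (anOrder D (Λ 1)) = 1 ↔ RankZeroShaTwo D)

open Classical in
/-- the number of the `D ≤ X` of the class with the property `Q` -/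
noncomputable def num (Q : ℕ → Prop) (X : ℕ) : ℕ :=
  ((Finset.Icc 1 X).filter fun D => Family D ∧ Q D).card

/-- the constant `0.4194...` -/
noncomputable def cc : ℝ := ∏' i : ℕ, (1 - (1 / 2 : ℝ) ^ (2 * i + 1))

section proof

open Pool.Agent.Results.MP_4a9ea6_nt.TwoPartTwistsX49 (Adm mat core two_iff)

lemma sel_iff (D : ℕ) : RankZeroShaTwo D ↔
    (Finite (E D).toAffine.Point ∧ ∀ x : Sha (E D), x + x = 0 → x = 0) := by
  unfold RankZeroShaTwo
  simp only [two_nsmul]

theorem modTwo {D : ℕ} (h : Family D) : FormulaModTwo D := by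
  obtain ⟨h1, -, -, h4, -, -, Λ, h7, h8, -, h10, -⟩ := core h
  refine ⟨h1, Λ, h7, h8, fun Γ _ v hv => ⟨(h10 Γ v hv).1, ?_⟩⟩
  rw [sel_iff, h4]
  exact (h10 Γ v hv).2

theorem two_sel {D : ℕ} (h : Family D) : TwoPart D ↔ RankZeroShaTwo D := by
  rw [sel_iff, two_iff h]
  exact (core h).2.2.2.1.symm

theorem two_gd {D : ℕ} (h : Family D) :
    TwoPart D ↔ Pool.Agent.R413.SQ.Gd Pool.Agent.Y698.SG.n4 D.primeFactors :=
  (two_iff h).trans (Pool.Agent.R413.SQ.Cor.det_iff h)

theorem num_eq {Q : ℕ → Prop} {R : Finset ℕ → Prop} (h : ∀ D, Family D → (Q D ↔ R D.primeFactors))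
    (X : ℕ) : num Q X = (open Classical in ((Finset.Icc 1 X).filter fun D => Squarefree D ∧
      Pool.Agent.R413.SQ.Cl ∅ ∅ D.primeFactors ∧ R D.primeFactors).card) := by
  classical
  unfold num
  refine congrArg Finset.card (Finset.ext fun D => ?_)
  rw [Finset.mem_filter, Finset.mem_filter]
  refine and_congr_right fun _ => ?_
  rw [← and_assoc, ← Pool.Agent.R413.SQ.Cor.cl_iff]
  exact and_congr_right fun hF => h D hF

theorem num_two (X : ℕ) : num TwoPart X = (open Classical in ((Finset.Icc 1 X).filter fun D =>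
    Squarefree D ∧ Pool.Agent.R413.SQ.Cl ∅ ∅ D.primeFactors ∧
      Pool.Agent.R413.SQ.Gd Pool.Agent.Y698.SG.n4 D.primeFactors).card) :=
  num_eq (R := Pool.Agent.R413.SQ.Gd Pool.Agent.Y698.SG.n4) (fun _ hD => two_gd hD) X

theorem num_all (X : ℕ) : num (fun _ => True) X = (open Classical in
    ((Finset.Icc 1 X).filter fun D =>
      Squarefree D ∧ Pool.Agent.R413.SQ.Cl ∅ ∅ D.primeFactors).card) := by
  classical
  rw [num_eq (R := fun _ => True) (fun _ _ => Iff.rfl)]
  simp only [and_true]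

end proof

theorem result :
    (∀ D : ℕ, Family D → FormulaModTwo D ∧ (TwoPart D ↔ RankZeroShaTwo D)) ∧
    Tendsto (fun X : ℕ => (num TwoPart X : ℝ) / (num (fun _ => True) X : ℝ)) atTop (𝓝 cc) ∧
    0.4194 < cc ∧ cc < 0.4195 ∧
    ∃ (a : ℝ) (X₀ : ℕ), 0 < a ∧ ∀ X : ℕ, X₀ ≤ X →
      a * X / Real.sqrt (Real.log X) ≤ (num TwoPart X : ℝ) := by
  have hc := Pool.Agent.Y948.CQ.t_C2.2.2.2
  refine ⟨fun D h => ⟨modTwo h, two_sel h⟩, ?_, hc.1, hc.2, ?_⟩
  · have h := Pool.Agent.R413.SQ.t_DEN ∅ ∅ Pool.Agent.Y698.SG.n4 trivial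
    unfold Pool.Agent.Y703.CQ.c2 at h
    simp only [num_two, num_all]
    exact h
  · obtain ⟨a, X₀, ha, h⟩ := Pool.Agent.R413.SQ.good_ge Pool.Agent.Y698.SG.n4
    refine ⟨a, X₀, ha, fun X hX => ?_⟩
    rw [num_two]
    exact h X hX

end Pool.Agent.Results.MP_92892c_nt.FullClassTwoPartX49
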