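import Pool.Agent.R494.FG8
import Pool.Agent.Results.MP_4a9ea6_nt.ResidueGraphTwistsX14
import Pool.Agent.Results.MP_9c97e9_nt.ResidueGraphTwists

/-!
# The 2-part of the leading-term formula for all the twists of `X_0(14)` and of `X_0(49)` by the finite
# products of an infinite set of primes with a prescribed countable graph

Let `E_N` be the quadratic twist by `N` of the non-CM curve `X_0(14)` or of the CM curve `X_0(49)`. Let `𝒩` be
a finite set of such twists, `N` in the classes below (for `X_0(14)`: both signs). Let `m` be a multiple of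
`56` and of all the `N`, and `r` a class modulo `m` which is prime to `m`, `1` modulo `8`, a square modulo `7`
and modulo the prime factors of the `N`. Let `g : ℕ → ℕ` be a function which tends to infinity (however
slowly). Let `G` be a graph with the vertices `0, 1, 2, …`, decomposed into finite intervals of vertices
of any sizes, such that each vertex is joined to all or to none of the vertices of every later interval
(for intervals of size one: any countable graph, for instance the random graph, which contains all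
finite graphs).

There are `M ∈ {1, -q}`, `M' ∈ {1, q'}`, with primes `q`, `q'`, and there is an infinite sequence of prime
numbers `p_0 < p_1 < ⋯`, all `≡ r` modulo `m`, with `p_j` a nonsquare modulo `p_i` if and only if `i` and `j`
are joined in `G`, such that the primes which belong to the same interval of vertices form a cluster of diameter
`≤ g(p)`, `p` the first of them, and such that for **all** finite sets `T` of vertices, for all the curves `E_N` of
`𝒩`, and `D = N M ∏_{i ∈ T} p_i` (`D = N M' ∏_{i ∈ T} p_i` for the twists of `X_0(49)`), `D ≠ 1`, and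
`z = (L(E_D, 1) / Ω) / (∏ c_p / #E_D(ℚ)_tors²)`, which is `#Ш(E_D/ℚ)` or zero according to the conjecture:

* if `E_N(ℚ)` is finite, `Ш(E_N/ℚ)[2] = 0`, and the subgraph of `G` induced on `T` has an odd number of
  rooted spanning forests, then `L(E_D, 1) ≠ 0`, `E_D(ℚ)` is finite, `Ш(E_D/ℚ)[2^∞] = 0` and `z` is a
  unit at two: the 2-part of the formula holds;
* otherwise `z` is divisible by the primes above two (or zero), and `E_D(ℚ)` is infinite or
  `Ш(E_D/ℚ)[2] ≠ 0`: the formula holds modulo two.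

So the 2-part of the formula, in the case of rank zero and `Ш[2] = 0`, is known for all members of the
multiplicative systems of twists of both curves, and is dictated by any given countable graph.

Proof: `R494/FG8` (an infinite sequence of clusters of primes with the given graph, of one colour: our file
`MP_32c55d_nt/InfiniteGraphFields`), and the criteria of helper428, helper413 and the starting
files in the form of our files `MP_4a9ea6_nt/ResidueGraphTwistsX14` and `MP_9c97e9_nt/ResidueGraphTwists`.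
-/

set_option autoImplicit false

open WeierstrassCurve

namespace Pool.Agent.Results.MP_92892c_nt.InfiniteGraphTwoPart

/-- the coefficient `a` of the twist `y² = x³ + a x + b` by `N` of `X_0(49)` (`c = true`) and of
`X_0(14)` (`c = false`) -/
def A (c : Bool) (N : ℤ) : ℤ := if c = true then -35 * N ^ 2 else 5805 * N ^ 2

/-- the coefficient `b` of the twist `y² = x³ + a x + b` by `N` of `X_0(49)` (`c = true`) and of
`X_0(14)` (`c = false`) -/
def B (c : Bool) (N : ℤ) : ℤ := if c = true then -98 * N ^ 3 else -285714 * N ^ 3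

/-- `E_N(ℚ)` is finite and `Ш(E_N/ℚ)` has no element of order two -/
def RankZeroShaTwo (c : Bool) (N : ℤ) : Prop :=
  Finite ({ a₁ := 0, a₂ := 0, a₃ := 0, a₄ := (A c N : ℚ), a₆ := (B c N : ℚ) } :
    WeierstrassCurve ℚ).toAffine.Point ∧
  ∀ x : Pool.Agent.TH841.NF.D.Sha
    ({ a₁ := 0, a₂ := 0, a₃ := 0, a₄ := (A c N : ℚ), a₆ := (B c N : ℚ) } : WeierstrassCurve ℚ),
    2 • x = 0 → x = 0

/-- the class of the twists of `X_0(49)`: `N ≥ 1` is squarefree and all its prime factors are `1`
modulo `4` -/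
def Class49 (N : ℤ) : Prop := 0 < N ∧ Squarefree N ∧ ∀ p : ℕ, p.Prime → (p : ℤ) ∣ N → p % 4 = 1

/-- the class of the twists of `X_0(14)`: `N` is squarefree, positive or negative, `1` modulo `4` and a
square modulo `7`, and all its prime factors `p ≠ 3` split completely in `ℚ(i, √2, √-7)`, or they are
inert in `ℚ(√2)` and in `ℚ(√-7)` -/
def Class14 (N : ℤ) : Prop := Squarefree N ∧ N % 4 = 1 ∧ (N % 7 = 1 ∨ N % 7 = 2 ∨ N % 7 = 4) ∧
  ∀ p : ℕ, p.Prime → (p : ℤ) ∣ N → p ≠ 3 ∧
    ((p.Prime ∧ p % 8 = 1 ∧ (p % 7 = 1 ∨ p % 7 = 2 ∨ p % 7 = 4)) ∨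
      (p.Prime ∧ (p % 8 = 3 ∨ p % 8 = 5) ∧ (p % 7 = 3 ∨ p % 7 = 5 ∨ p % 7 = 6)))

/-- the two classes -/
def Adm (c : Bool) (N : ℤ) : Prop := if c = true then Class49 N else Class14 N

open Classical in
/-- The identity plus the Laplacian of the subgraph of `G` induced on `T`, modulo two. Its determinant is
the number of the rooted spanning forests of this subgraph modulo two. -/
noncomputable def forest (G : SimpleGraph ℕ) (T : Finset ℕ) : Matrix T T (ZMod 2) :=
  Matrix.of fun i j => if i = j then 1 + ((T.filter fun l => G.Adj i l).card : ZMod 2)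
    else if G.Adj i j then 1 else 0

/-- The 2-part of the formula for the twist by `D`, in the case of rank zero and `Ш[2] = 0`, as in our
files `MP_9c97e9_nt/ResidueGraphTwists` for `X_0(49)` and `MP_4a9ea6_nt/ResidueGraphTwistsX14` for
`X_0(14)`: the equation is minimal, `L(E_D, s)` is entire, `L(E_D, 1) ≠ 0`, `E_D(ℚ)` is finite,
`Ш(E_D/ℚ)[2^∞] = 0`, and `z = #tors² L(E_D, 1) / (Ω ∏ c_p)` is a unit at two. -/
def TwoPart (c : Bool) (D : ℤ) : Prop :=
  if c = true then Pool.Agent.Results.MP_9c97e9_nt.ResidueGraphTwists.TwoPart D.toNat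
  else Pool.Agent.Results.MP_4a9ea6_nt.ResidueGraphTwistsX14.TwoPart
    (Pool.Agent.Results.MP_4a9ea6_nt.ResidueGraphTwistsX14.twist D)

open Pool.Agent.Results.MP_4a9ea6_nt.ResidueGraphTwistsX14 (Minimal IsL IsTamagawa Tam Omega torsOrder
  anOrder base) in
/-- The formula modulo two for the twist by `D` of `X_0(14)`, in the second case: the equation is minimal,
`L(E_D, s)` is entire, `z = w y²` with a rational number `w` which is a unit at two and with an even
integer `y` (it may be zero), and `E_D(ℚ)` is infinite or `Ш(E_D/ℚ)` has an element of order two. -/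
def EvenPart14 (D : ℤ) : Prop :=
  Minimal (Pool.Agent.Results.MP_4a9ea6_nt.ResidueGraphTwistsX14.twist D) ∧
  (Finite (base (Pool.Agent.Results.MP_4a9ea6_nt.ResidueGraphTwistsX14.twist D) ℚ).toAffine.Point →
    ∃ x : Pool.Agent.TH841.SH.D.Sha
      (base (Pool.Agent.Results.MP_4a9ea6_nt.ResidueGraphTwistsX14.twist D) ℚ), x ≠ 0 ∧ 2 • x = 0) ∧
  ∃ (L : ℂ → ℂ) (c : ℕ → ℕ) (w : ℚ) (y : ℤ),
    IsL (Pool.Agent.Results.MP_4a9ea6_nt.ResidueGraphTwistsX14.twist D) L ∧
    IsTamagawa (Pool.Agent.Results.MP_4a9ea6_nt.ResidueGraphTwistsX14.twist D) c ∧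
    0 < Tam (Pool.Agent.Results.MP_4a9ea6_nt.ResidueGraphTwistsX14.twist D) c ∧
    0 < Omega (Pool.Agent.Results.MP_4a9ea6_nt.ResidueGraphTwistsX14.twist D) ∧
    0 < torsOrder (Pool.Agent.Results.MP_4a9ea6_nt.ResidueGraphTwistsX14.twist D) ∧
    w ≠ 0 ∧ padicValRat 2 w = 0 ∧ Even y ∧
    anOrder (Pool.Agent.Results.MP_4a9ea6_nt.ResidueGraphTwistsX14.twist D) (L 1) c =
      ((w * (y : ℚ) ^ 2 : ℚ) : ℂ)

/-- The formula modulo two for the twist by `D`, in the second case: `z` is integral and not a unit at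
the primes above two (it may be zero), and `E_D(ℚ)` is infinite or `Ш(E_D/ℚ)` has an element of order
two; for `X_0(49)` as in our file `MP_9c97e9_nt/ResidueGraphTwists`. -/
def EvenPart (c : Bool) (D : ℤ) : Prop :=
  if c = true then Pool.Agent.Results.MP_9c97e9_nt.ResidueGraphTwists.EvenPart D.toNat
  else EvenPart14 D

section proof

open Pool.Agent.R494.FG (crit14 crit49)
open Pool.Agent.Y687.MQ (AdmD matD)

lemma adm_iff (c : Bool) (N : ℤ) : Adm c N ↔
    Pool.Agent.Results.MP_32c55d_nt.InfiniteGraphFields.Adm c N := Iff.rfl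

lemma rz_iff (c : Bool) (N : ℤ) : RankZeroShaTwo c N ↔
    Pool.Agent.Results.MP_32c55d_nt.InfiniteGraphFields.RankZeroShaTwo c N := Iff.rfl

lemma rz_iff' (c : Bool) (N : ℤ) : RankZeroShaTwo c N ↔ Pool.Agent.R494.FG.RZ c N := Iff.rfl

/-- the first case -/
theorem two_of {c : Bool} {D : ℤ} (h : Adm c D) (h1 : D ≠ 1 ∨ c = true) (hr : RankZeroShaTwo c D) :
    TwoPart c D := by
  unfold TwoPart
  cases c
  · rw [if_neg (by decide)]
    have hD : AdmD D := by
      unfold Adm at h
      rw [if_neg (by decide)] at h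
      exact h
    have h1' : D ≠ 1 := h1.resolve_right (by decide)
    have h2 := Pool.Agent.Results.MP_4a9ea6_nt.ResidueGraphTwistsX14.criterion
      ((Pool.Agent.Results.MP_4a9ea6_nt.ResidueGraphTwistsX14.adm_iff D).2 hD) h1'
    refine h2.2.2.2.1 ?_
    rw [Pool.Agent.Results.MP_4a9ea6_nt.ResidueGraphTwistsX14.R_det hD]
    exact (crit14 hD).1 hr
  · rw [if_pos rfl]
    have hN : Class49 D := by
      unfold Adm at h
      rw [if_pos rfl] at h
      exact h
    obtain ⟨d, rfl, hd⟩ := Pool.Agent.Results.MP_8b7eba_nt.BothCurvesEveryGraph.class49 hN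
    rw [Int.toNat_natCast]
    exact Pool.Agent.Results.MP_9c97e9_nt.ResidueGraphTwists.two_of hd ((crit49 hd).1 hr)

/-- the second case -/
theorem even_of {c : Bool} {D : ℤ} (h : Adm c D) (h1 : D ≠ 1 ∨ c = true) (hr : ¬ RankZeroShaTwo c D) :
    EvenPart c D := by
  unfold EvenPart
  cases c
  · rw [if_neg (by decide)]
    have hD : AdmD D := by
      unfold Adm at h
      rw [if_neg (by decide)] at h
      exact h
    have h1' : D ≠ 1 := h1.resolve_right (by decide)
    obtain ⟨h2, ⟨L, c, w, y, h3, h4, ⟨t, ht, ht'⟩, ⟨u, hu, hu'⟩, h6, h7, h8, h9, h10⟩, h11, h12⟩ :=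
      Pool.Agent.Results.MP_4a9ea6_nt.ResidueGraphTwistsX14.criterion
        ((Pool.Agent.Results.MP_4a9ea6_nt.ResidueGraphTwistsX14.adm_iff D).2 hD) h1'
    have hns : ¬ Pool.Agent.Results.MP_4a9ea6_nt.ResidueGraphTwistsX14.NoSelmer D := by
      rw [h11, Pool.Agent.Results.MP_4a9ea6_nt.ResidueGraphTwistsX14.R_det hD]
      exact fun h13 => hr ((crit14 hD).2 h13)
    refine ⟨h2, fun hf => ?_, L, c, w, y, h3, h4, ?_, h6, ?_, h7, h8, ?_, h9⟩
    · by_contra hcon
      push Not at hcon
      refine hns ⟨hf, fun x hx => ?_⟩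
      by_contra hx0
      exact hcon x hx0 hx
    · rw [ht']
      exact Nat.mul_pos (pow_pos two_pos _) ht.pos
    · rw [hu']
      exact Nat.mul_pos two_pos hu.pos
    · rw [← Int.not_odd_iff_even]
      exact fun h13 => hns (h10.1 h13)
  · rw [if_pos rfl]
    have hN : Class49 D := by
      unfold Adm at h
      rw [if_pos rfl] at h
      exact h
    obtain ⟨d, rfl, hd⟩ := Pool.Agent.Results.MP_8b7eba_nt.BothCurvesEveryGraph.class49 hN
    rw [Int.toNat_natCast]
    exact Pool.Agent.Results.MP_9c97e9_nt.ResidueGraphTwists.even_of hd fun h2 => hr ((crit49 hd).2 h2)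

end proof

/-- **The 2-part of the formula for all the twists of `X_0(14)` and of `X_0(49)` by the finite products of
an infinite sequence of primes with a given countable graph of quadratic residues.** -/
theorem result (𝒩 : Finset (Bool × ℤ)) (h𝒩 : ∀ e ∈ 𝒩, Adm e.1 e.2)
    (m r : ℕ) (hm : 0 < m) (h56 : 56 ∣ m) (h𝒩m : ∀ e ∈ 𝒩, e.2 ∣ (m : ℤ)) (hr : r.Coprime m)
    (hr8 : r % 8 = 1) (hr7 : r % 7 = 1 ∨ r % 7 = 2 ∨ r % 7 = 4)
    (hr𝒩 : ∀ e ∈ 𝒩, ∀ l : ℕ, l.Prime → (l : ℤ) ∣ e.2 → IsSquare ((r : ℕ) : ZMod l))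
    (g : ℕ → ℕ) (hg : Filter.Tendsto g .atTop .atTop)
    (t : ℕ → ℕ) (ht0 : t 0 = 0) (ht : StrictMono t) (G : SimpleGraph ℕ)
    (hG : ∀ j, ∀ i < t j, ∀ x y, t j ≤ x → x < t (j + 1) → t j ≤ y → y < t (j + 1) →
      (G.Adj i x ↔ G.Adj i y)) :
    ∃ q q' : ℕ, (q.Prime ∧ ¬ q ∣ m) ∧ (q'.Prime ∧ ¬ q' ∣ m) ∧ ∃ M : Bool → ℤ,
      (M false = 1 ∨ M false = -q) ∧ (M true = 1 ∨ M true = q') ∧
      ∃ p : ℕ → ℕ, StrictMono p ∧ (∀ i, (p i).Prime ∧ p i ≡ r [MOD m]) ∧
        (∀ i j, i ≠ j → (G.Adj i j ↔ ¬ IsSquare ((p j : ℕ) : ZMod (p i)))) ∧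
        (∀ j i, t j ≤ i → i < t (j + 1) → p i ≤ p (t j) + g (p (t j))) ∧
        ∀ (T : Finset ℕ), ∀ e ∈ 𝒩, e.2 * M e.1 * ∏ i ∈ T, (p i : ℤ) ≠ 1 →
          (RankZeroShaTwo e.1 e.2 ∧ (forest G T).det ≠ 0 →
            TwoPart e.1 (e.2 * M e.1 * ∏ i ∈ T, (p i : ℤ))) ∧
          (¬ (RankZeroShaTwo e.1 e.2 ∧ (forest G T).det ≠ 0) →
            EvenPart e.1 (e.2 * M e.1 * ∏ i ∈ T, (p i : ℤ))) := by
  obtain ⟨q, q', hq, hq', M, hM, hM', p, hp, h1, h2, h3, h4⟩ :=
    Pool.Agent.R494.FG.core 𝒩 h𝒩 m r hm h56 h𝒩m hr hr8 hr7 hr𝒩 g hg t ht0 ht G hG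
  refine ⟨q, q', hq, hq', M, hM, hM', p, hp, h1, h2, h3, fun T e he hne => ⟨fun h => ?_, fun h => ?_⟩⟩
  · obtain ⟨h5, h6⟩ := h4 e he T
    exact two_of h5 (Or.inl hne) (h6.2 h)
  · obtain ⟨h5, h6⟩ := h4 e he T
    exact even_of h5 (Or.inl hne) fun h7 => h (h6.1 h7)

end Pool.Agent.Results.MP_92892c_nt.InfiniteGraphTwoPart
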