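import Pool.Agent.W263.BSD.Lead8
import Pool.Agent.TH941.Newform

/-!
# The leading coefficient from the original products: a one-sided condition is enough

`E : y² = x³ + a x + b` is an elliptic curve over `ℚ`, `a, b ∈ ℤ`, `N_p` is the number of points modulo
`p` (with the point at infinity) and `P(x) = ∏_{p ≤ x, p ∤ 2Δ} N_p / p` is the original product of Birch
and Swinnerton-Dyer.  `F` is the entire continuation of the incomplete `L`-series (Euler factors at the primes
dividing `2Δ` removed), `r = ord_{s=1} F`, and `f` is the newform of `E`.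

Goldfeld (1982): if `P(x) ∼ A (log x)^ρ` with a constant `A ≠ 0`, then `ρ = r`,
`A = √2 e^{rγ} r! / F^{(r)}(1)` and `F` has no zero with `Re s > 1`. So the leading coefficient can be read off
from the products `P(x)`, provided that they have an asymptotic formula at all; Kuo-Murty and Conrad (2005)
showed that the asymptotic formula is equivalent to a (two-sided) bound for a sum over primes which is
stronger than the Riemann hypothesis for `E`. Here it is shown that ONE-SIDED slow variation is enough. The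
following are equivalent, for every curve:

* `P(x)/(log x)^r → √2 e^{rγ} r! / |F^{(r)}(1)|`;
* `P(x)/(log x)^ρ` has a limit in `(0, ∞)` for some real number `ρ`;
* for every `ε > 0` there is a `δ > 0` with `P(y) ≤ (1 + ε) P(x)` for all large `x` and all
  `x ≤ y ≤ x^(1+δ)` (no lower bound for `P(y)` is required);
* `F` has no real zeros `s > 1`, and for every `ε > 0` there is a `δ > 0` with `P(x) ≤ (1 + ε) P(y)` for all
  large `x` and all `x ≤ y ≤ x^(1+δ)`.

Consequently the leading-term formula `F^{(r)}(1)/r! = B` for a real number `B > 0` together with the slow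
variation from above is equivalent to the asymptotic formula `P(x) ∼ (√2 e^{ργ} / B) (log x)^ρ`, `ρ = r`.

Proof. `log P(e^u)` has a Laplace transform which is `log F(1 + w)/w` up to explicit terms. A bound from
above in the increments makes the transform converge for all `w > 0` (Landau), so that no real zeros exist, and
its behaviour for real `w → 0+` is given by the leading coefficient. A Tauberian theorem for slowly increasing
functions (one-sided increments, the gain is the logarithm) gives the limit; the squares of the primes are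
treated with the theorem of Rankin and Selberg for the newform. The analytic part is in the imported files
`Pool.Agent.W263.BSD` and `Pool.Agent.TH941`.
-/

set_option autoImplicit false

namespace Pool.Agent.Results.MP_92892c_nt.OneSidedSlowVariation

open Filter Topology Classical CongruenceSubgroup UpperHalfPlane
open scoped MatrixGroups

/-- `N_p`: the number of points of `y² = x³ + a x + b` modulo `p`, with the point at infinity. -/
noncomputable def numPoints (a b : ℤ) (p : ℕ) : ℕ :=
  Nat.card {q : ZMod p × ZMod p // q.2 ^ 2 = q.1 ^ 3 + (a : ZMod p) * q.1 + (b : ZMod p)} + 1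

/-- `p` is a prime that does not divide `2 Δ`, where `Δ = -4 a³ - 27 b²`. -/
def Good (a b : ℤ) (p : ℕ) : Prop :=
  p.Prime ∧ ¬ ((p : ℤ) ∣ 2 * (-4 * a ^ 3 - 27 * b ^ 2))

/-- The original Birch and Swinnerton-Dyer product `P(x) = ∏_{p ≤ x, p ∤ 2Δ} N_p / p`. -/
noncomputable def P (a b : ℤ) (x : ℝ) : ℝ :=
  ∏ p ∈ (Finset.range (⌊x⌋₊ + 1)).filter (Good a b), ((numPoints a b p : ℝ) / p)

/-- `F` is an entire function which for `Re s > 3/2` is the incomplete `L`-series
`∏_{p ∤ 2Δ} (1 - a_p p^{-s} + p^{1-2s})⁻¹`, `a_p = p + 1 - N_p`, of `y² = x³ + a x + b`. -/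
def IsLSeries (a b : ℤ) (F : ℂ → ℂ) : Prop :=
  Differentiable ℂ F ∧ ∀ s : ℂ, (3 : ℝ) / 2 < s.re →
    HasProd (fun p : ℕ => if Good a b p then
      (1 - ((p : ℂ) + 1 - (numPoints a b p : ℂ)) * (p : ℂ) ^ (-s) + (p : ℂ) ^ (1 - 2 * s))⁻¹ else 1)
      (F s)

/-- The `n`-th Fourier coefficient of `f`. -/
noncomputable def coef {N : ℕ} (f : CuspForm (Gamma0 N : Subgroup (GL (Fin 2) ℝ)) 2) (n : ℕ) : ℂ :=
  (qExpansion 1 f).coeff n

/-- `f ∈ S_2(Γ₀(N))` is the newform of the elliptic curve `E : y² = x³ + a x + b` of conductor `N`: the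
Fourier coefficients `c(n)` of `f` are real with `c(1) = 1`, they satisfy the Hecke relations
`c(mn) = c(m) c(n)` for coprime `m`, `n` and `c(p^(j+2)) = c(p) c(p^(j+1)) - p c(p^j)` (without the last
term if `p ∣ N`), `c(p) = a_p = p + 1 - N_p` for all primes `p ∤ 2Δ`, `|c(p)| ≤ 2 √p` for all
`p ∤ N` (Hasse) and `c(p) = 0, 1, -1` for `p ∣ N`. -/
structure IsNewformOf (a b : ℤ) (N : ℕ) (f : CuspForm (Gamma0 N : Subgroup (GL (Fin 2) ℝ)) 2) :
    Prop where
  one : coef f 1 = 1
  real : ∀ n, (coef f n).im = 0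
  mul : ∀ m n : ℕ, Nat.Coprime m n → coef f (m * n) = coef f m * coef f n
  pow : ∀ p j : ℕ, p.Prime → coef f (p ^ (j + 2)) = coef f p * coef f (p ^ (j + 1)) -
      (if p ∣ N then 0 else (p : ℂ) * coef f (p ^ j))
  points : ∀ p : ℕ, Good a b p → coef f p = (p : ℂ) + 1 - (numPoints a b p : ℂ)
  good : ∀ p : ℕ, p.Prime → ¬ p ∣ N → ‖coef f p‖ ≤ 2 * Real.sqrt p
  bad : ∀ p : ℕ, p.Prime → p ∣ N → coef f p = 0 ∨ coef f p = 1 ∨ coef f p = -1

/-- Slow variation from above: for every `ε > 0` there is a `δ > 0` with `g(y) ≤ (1 + ε) g(x)` for all large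
`x` and all `x ≤ y ≤ x^(1+δ)`. -/
def SlowAbove (g : ℝ → ℝ) : Prop :=
  ∀ ε : ℝ, 0 < ε → ∃ δ : ℝ, 0 < δ ∧ ∀ᶠ x : ℝ in atTop, ∀ y, x ≤ y → y ≤ x ^ (1 + δ) →
    g y ≤ (1 + ε) * g x

/-- Slow variation from below: for every `ε > 0` there is a `δ > 0` with `g(x) ≤ (1 + ε) g(y)` for all large
`x` and all `x ≤ y ≤ x^(1+δ)`. -/
def SlowBelow (g : ℝ → ℝ) : Prop :=
  ∀ ε : ℝ, 0 < ε → ∃ δ : ℝ, 0 < δ ∧ ∀ᶠ x : ℝ in atTop, ∀ y, x ≤ y → y ≤ x ^ (1 + δ) →
    g x ≤ (1 + ε) * g y

/-! ### Translation to the definitions of the imported files -/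

variable {a b : ℤ}

theorem P_eq : P a b = Pool.Agent.W263.BSD.bsdProduct a b := by
  funext x
  unfold P Pool.Agent.W263.BSD.bsdProduct numPoints Pool.Agent.W263.BSD.pointCount
  refine Finset.prod_congr rfl fun p _ => ?_
  push_cast
  rfl

theorem numPoints_sub (p : ℕ) : (p : ℂ) + 1 - (numPoints a b p : ℂ) =
    (p : ℂ) - (Pool.Agent.W263.BSD.pointCount a b p : ℂ) := by
  unfold numPoints Pool.Agent.W263.BSD.pointCount
  push_cast
  ring

theorem isLSeries {F : ℂ → ℂ} (hF : IsLSeries a b F) :
    Pool.Agent.W263.BSD.IsLSeries a b F := by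
  refine ⟨hF.1, fun s hs => ?_⟩
  have h := hF.2 s hs
  simp only [numPoints_sub] at h
  exact h

theorem hecke {N : ℕ} {f : CuspForm (Gamma0 N : Subgroup (GL (Fin 2) ℝ)) 2}
    (hf : IsNewformOf a b N f) : Pool.Agent.TH941.Hecke f where
  one := hf.one
  real := hf.real
  mul := hf.mul
  pow := hf.pow
  good := hf.good
  bad := fun p hp h => by
    rcases hf.bad p hp h with h1 | h1 | h1
    · have h2 : ‖coef f p‖ ≤ 1 := by rw [h1]; simp
      exact h2
    · have h2 : ‖coef f p‖ ≤ 1 := by rw [h1]; simp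
      exact h2
    · have h2 : ‖coef f p‖ ≤ 1 := by rw [h1]; simp
      exact h2

/-! ### Asymptotic formulas with a real exponent -/

/-- An asymptotic formula with any real exponent implies slow variation from above. -/
theorem slowAbove_of_tendsto {g : ℝ → ℝ} {ρ C : ℝ} (hC : 0 < C)
    (h : Tendsto (fun x : ℝ => g x / Real.log x ^ ρ) atTop (𝓝 C)) : SlowAbove g := by
  intro ε hε
  set η : ℝ := min (1 / 4) (ε / 8) with hη
  have hη0 : 0 < η := by positivity
  have hη1 : η ≤ 1 / 4 := min_le_left _ _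
  have hη2 : 8 * η ≤ ε := by
    have := min_le_right (1 / 4) (ε / 8)
    linarith
  have hkey : (1 + η) * (1 + η) ≤ (1 + ε) * (1 - η) := by nlinarith
  -- choice of `δ`
  have hlog : 0 < Real.log (1 + η) := Real.log_pos (by linarith)
  set t : ℝ := Real.log (1 + η) / (|ρ| + 1) with ht
  have hρ1 : 0 < |ρ| + 1 := by positivity
  have ht0 : 0 < t := by positivity
  refine ⟨Real.exp t - 1, by linarith [Real.add_one_lt_exp ht0.ne'], ?_⟩
  have hpow : Real.exp t ^ |ρ| ≤ 1 + η := by
    rw [← Real.exp_mul]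
    have h1 : t * |ρ| ≤ Real.log (1 + η) := by
      rw [ht, div_mul_eq_mul_div, div_le_iff₀ hρ1]
      nlinarith [abs_nonneg ρ]
    calc Real.exp (t * |ρ|) ≤ Real.exp (Real.log (1 + η)) := Real.exp_le_exp.mpr h1
      _ = 1 + η := Real.exp_log (by linarith)
  have h1 : ∀ᶠ x : ℝ in atTop, (1 - η) * C < g x / Real.log x ^ ρ ∧
      g x / Real.log x ^ ρ < (1 + η) * C := by
    refine (h.eventually (lt_mem_nhds (show (1 - η) * C < C by nlinarith))).and
      (h.eventually (gt_mem_nhds (show C < (1 + η) * C by nlinarith)))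
  obtain ⟨X, hX⟩ := eventually_atTop.mp h1
  filter_upwards [eventually_ge_atTop (max X (Real.exp 1))] with x hx y hxy hyx
  have hx1 : Real.exp 1 ≤ x := (le_max_right _ _).trans hx
  have hx0 : 0 < x := lt_of_lt_of_le (Real.exp_pos 1) hx1
  have hy0 : 0 < y := hx0.trans_le hxy
  have hl : 1 ≤ Real.log x := by rwa [Real.le_log_iff_exp_le hx0]
  have hl0 : 0 < Real.log x := by linarith
  have hll : Real.log x ≤ Real.log y := Real.log_le_log hx0 hxy
  have hly0 : 0 < Real.log y := hl0.trans_le hll
  have hly : Real.log y ≤ Real.exp t * Real.log x := by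
    have h2 := Real.log_le_log hy0 hyx
    rw [Real.log_rpow hx0] at h2
    linarith
  have hgx := (hX x ((le_max_left _ _).trans hx)).1
  have hgy := (hX y ((le_max_left _ _).trans (hx.trans hxy))).2
  have hpx : 0 < Real.log x ^ ρ := Real.rpow_pos_of_pos hl0 ρ
  have hpy : 0 < Real.log y ^ ρ := Real.rpow_pos_of_pos hly0 ρ
  rw [lt_div_iff₀ hpx] at hgx
  rw [div_lt_iff₀ hpy] at hgy
  have hcmp : Real.log y ^ ρ ≤ (1 + η) * Real.log x ^ ρ := by
    rcases le_or_gt 0 ρ with hρ | hρ
    · calc Real.log y ^ ρ ≤ (Real.exp t * Real.log x) ^ ρ :=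
          Real.rpow_le_rpow hly0.le hly hρ
        _ = Real.exp t ^ ρ * Real.log x ^ ρ := Real.mul_rpow (Real.exp_pos t).le hl0.le
        _ ≤ (1 + η) * Real.log x ^ ρ := by
          rw [abs_of_nonneg hρ] at hpow
          exact mul_le_mul_of_nonneg_right hpow hpx.le
    · calc Real.log y ^ ρ ≤ Real.log x ^ ρ :=
          Real.rpow_le_rpow_of_nonpos hl0 hll hρ.le
        _ ≤ (1 + η) * Real.log x ^ ρ := by nlinarith
  have h3 : (1 + η) * C * Real.log y ^ ρ ≤ (1 + η) * C * ((1 + η) * Real.log x ^ ρ) :=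
    mul_le_mul_of_nonneg_left hcmp (by positivity)
  have h4 : (1 + η) * C * ((1 + η) * Real.log x ^ ρ) ≤ (1 + ε) * ((1 - η) * C * Real.log x ^ ρ) := by
    have h5 := mul_le_mul_of_nonneg_right hkey (mul_pos hC hpx).le
    nlinarith [h5]
  have h5 : (1 + ε) * ((1 - η) * C * Real.log x ^ ρ) ≤ (1 + ε) * g x :=
    mul_le_mul_of_nonneg_left hgx.le (by linarith)
  linarith

/-- Two asymptotic formulas have the same exponent and the same constant. -/
theorem exponent_unique {g : ℝ → ℝ} {ρ σ C D : ℝ} (hC : 0 < C) (hD : 0 < D)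
    (h1 : Tendsto (fun x : ℝ => g x / Real.log x ^ ρ) atTop (𝓝 C))
    (h2 : Tendsto (fun x : ℝ => g x / Real.log x ^ σ) atTop (𝓝 D)) : ρ = σ ∧ C = D := by
  have hρ : ρ = σ := by
    by_contra hne
    -- the quotient tends to `D / C`, but it is a power of `log x`
    have h3 : Tendsto (fun x : ℝ => Real.log x ^ (ρ - σ)) atTop (𝓝 (D / C)) := by
      refine (h2.div h1 hC.ne').congr' ?_
      have h0 : ∀ᶠ x : ℝ in atTop, 0 < g x / Real.log x ^ ρ := h1.eventually (lt_mem_nhds hC)
      filter_upwards [h0, eventually_gt_atTop (Real.exp 1)] with x hx hx1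
      have hx0 : 0 < x := (Real.exp_pos 1).trans hx1
      have hl : 0 < Real.log x := by
        have : 1 < Real.log x := by rwa [Real.lt_log_iff_exp_lt hx0]
        linarith
      have hpx : 0 < Real.log x ^ ρ := Real.rpow_pos_of_pos hl ρ
      have hpy : 0 < Real.log x ^ σ := Real.rpow_pos_of_pos hl σ
      have hg : g x ≠ 0 := by
        intro h
        rw [h, zero_div] at hx
        exact lt_irrefl _ hx
      simp only [Pi.div_apply]
      rw [Real.rpow_sub hl]
      field_simp
    have hpos : 0 < D / C := div_pos hD hC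
    rcases lt_or_gt_of_ne hne with h | h
    · have h4 : Tendsto (fun x : ℝ => Real.log x ^ (ρ - σ)) atTop (𝓝 0) := by
        have h5 := (tendsto_rpow_neg_atTop (show 0 < σ - ρ by linarith)).comp Real.tendsto_log_atTop
        refine h5.congr fun x => ?_
        simp only [Function.comp_apply, neg_sub]
      exact hpos.ne' (tendsto_nhds_unique h3 h4)
    · have h4 : Tendsto (fun x : ℝ => Real.log x ^ (ρ - σ)) atTop atTop :=
        (tendsto_rpow_atTop (show 0 < ρ - σ by linarith)).comp Real.tendsto_log_atTop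
      exact not_tendsto_nhds_of_tendsto_atTop h4 _ h3
  subst hρ
  exact ⟨rfl, tendsto_nhds_unique h1 h2⟩

/-- **The leading coefficient from the original products: one-sided slow variation is enough.** -/
theorem result (a b : ℤ) (hΔ : 4 * a ^ 3 + 27 * b ^ 2 ≠ 0) (F : ℂ → ℂ) (hF : IsLSeries a b F)
    (N : ℕ) [NeZero N] (f : CuspForm (Gamma0 N : Subgroup (GL (Fin 2) ℝ)) 2)
    (hf : IsNewformOf a b N f) :
    ∃ r : ℕ, analyticOrderAt F 1 = r ∧ iteratedDeriv r F 1 ≠ 0 ∧
      List.TFAE [
        Tendsto (fun x : ℝ => P a b x / Real.log x ^ r) atTop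
          (𝓝 (√2 * Real.exp (r * Real.eulerMascheroniConstant) *
            ((r.factorial : ℝ) / ‖iteratedDeriv r F 1‖))),
        ∃ ρ C : ℝ, 0 < C ∧ Tendsto (fun x : ℝ => P a b x / Real.log x ^ ρ) atTop (𝓝 C),
        SlowAbove (P a b),
        (∀ s : ℝ, 1 < s → F s ≠ 0) ∧ SlowBelow (P a b)] ∧
      ∀ ρ B : ℝ, 0 < B →
        (Tendsto (fun x : ℝ => P a b x / Real.log x ^ ρ) atTop
            (𝓝 (√2 * Real.exp (ρ * Real.eulerMascheroniConstant) / B)) ↔
          ρ = r ∧ iteratedDeriv r F 1 / (r.factorial : ℂ) = (B : ℂ) ∧ SlowAbove (P a b)) := by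
  have hF' := isLSeries hF
  obtain ⟨r, hr⟩ := Pool.Agent.W263.BSD.order_finite hF'
  obtain ⟨hpos, -⟩ := Pool.Agent.W263.BSD.lead_limit hF.1 hr
  have hfac : (0 : ℝ) < r.factorial := by exact_mod_cast r.factorial_pos
  have hnorm : 0 < ‖iteratedDeriv r F 1‖ := by
    unfold Pool.Agent.W263.BSD.leadAbs at hpos
    rw [div_pos_iff] at hpos
    rcases hpos with h1 | h1
    · exact h1.1
    · linarith [h1.2]
  have hne : iteratedDeriv r F 1 ≠ 0 := norm_pos_iff.mp hnorm
  have hrs : Tendsto (Pool.Agent.W263.BSD.rsSum a b) atTop (𝓝 0) :=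
    (hecke hf).rsSum_tendsto hΔ fun p hp => (hf.points p hp).trans (numPoints_sub p)
  have hiff := fun C => Pool.Agent.W263.BSD.product_iff_star (a := a) (b := b) hΔ hrs r C
  have hL := Pool.Agent.W263.BSD.lead_tfae hF' hr
  have hT : √2 * Real.exp (r * Real.eulerMascheroniConstant) *
      ((r.factorial : ℝ) / ‖iteratedDeriv r F 1‖) =
      √2 * (Real.exp (r * Real.eulerMascheroniConstant) / Pool.Agent.W263.BSD.leadAbs F r) := by
    unfold Pool.Agent.W263.BSD.leadAbs
    field_simp
  rw [P_eq]
  have hTpos : 0 < √2 * Real.exp (r * Real.eulerMascheroniConstant) *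
      ((r.factorial : ℝ) / ‖iteratedDeriv r F 1‖) := by positivity
  have hslow1 : SlowAbove (Pool.Agent.W263.BSD.bsdProduct a b) →
      Tendsto (fun x : ℝ => Pool.Agent.W263.BSD.bsdProduct a b x / Real.log x ^ r) atTop
          (𝓝 (√2 * Real.exp (r * Real.eulerMascheroniConstant) *
            ((r.factorial : ℝ) / ‖iteratedDeriv r F 1‖))) := by
    intro h
    rw [hT, hiff]
    exact (hL.out 2 0).mp h
  have hreal : Tendsto (fun x : ℝ => Pool.Agent.W263.BSD.bsdProduct a b x / Real.log x ^ r) atTop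
          (𝓝 (√2 * Real.exp (r * Real.eulerMascheroniConstant) *
            ((r.factorial : ℝ) / ‖iteratedDeriv r F 1‖))) →
      Tendsto (fun x : ℝ => Pool.Agent.W263.BSD.bsdProduct a b x / Real.log x ^ (r : ℝ)) atTop
          (𝓝 (√2 * Real.exp (r * Real.eulerMascheroniConstant) *
            ((r.factorial : ℝ) / ‖iteratedDeriv r F 1‖))) := by
    intro h
    refine h.congr fun x => ?_
    rw [Real.rpow_natCast]
  refine ⟨r, hr, hne, ?_, ?_⟩
  · tfae_have 1 → 2 := fun h => ⟨r, _, hTpos, hreal h⟩
    tfae_have 2 → 3 := by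
      rintro ⟨ρ, C, hC, h⟩
      exact slowAbove_of_tendsto hC h
    tfae_have 3 → 1 := hslow1
    tfae_have 1 → 4 := by
      intro h
      rw [hT, hiff] at h
      exact (hL.out 0 3).mp h
    tfae_have 4 → 1 := by
      intro h
      rw [hT, hiff]
      exact (hL.out 3 0).mp h
    tfae_finish
  · intro ρ B hB
    -- under slow variation the leading coefficient is a positive real number
    have hcoef : SlowAbove (Pool.Agent.W263.BSD.bsdProduct a b) →
        iteratedDeriv r F 1 / (r.factorial : ℂ) =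
          ((‖iteratedDeriv r F 1‖ / (r.factorial : ℝ) : ℝ) : ℂ) := by
      intro h
      obtain ⟨K, hK⟩ := Pool.Agent.W263.BSD.order_of_tendsto (a := a) (b := b)
        (show 0 < Real.exp (r * Real.eulerMascheroniConstant) / Pool.Agent.W263.BSD.leadAbs F r by
          positivity) ((hL.out 2 0).mp h)
      have hup : ∀ᶠ x : ℝ in atTop, ∀ y, x ≤ y → y ≤ x ^ 2 →
          Pool.Agent.W263.BSD.bsdProduct a b y ≤
            (2 ^ r * K / (√2 * Real.exp (r * Real.eulerMascheroniConstant) *
            ((r.factorial : ℝ) / ‖iteratedDeriv r F 1‖) / 2)) *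
              Pool.Agent.W263.BSD.bsdProduct a b x := by
        set T := √2 * Real.exp (r * Real.eulerMascheroniConstant) *
            ((r.factorial : ℝ) / ‖iteratedDeriv r F 1‖) with hTdef
        have h1 := (hslow1 h).eventually (lt_mem_nhds (show T / 2 < T by linarith))
        obtain ⟨X, hX⟩ := eventually_atTop.mp hK
        filter_upwards [h1, eventually_ge_atTop (max X (Real.exp 1))] with x hx hx1 y hxy hyx
        have hx2 : Real.exp 1 ≤ x := (le_max_right _ _).trans hx1
        have hx0 : 0 < x := lt_of_lt_of_le (Real.exp_pos 1) hx2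
        have hl : 1 ≤ Real.log x := by rwa [Real.le_log_iff_exp_le hx0]
        have hl0 : 0 < Real.log x := by linarith
        have hy0 : 0 < y := hx0.trans_le hxy
        have hlyx : Real.log y ≤ 2 * Real.log x := by
          have h2 := Real.log_le_log hy0 hyx
          rw [Real.log_pow] at h2
          exact_mod_cast h2
        have hly0 : 0 ≤ Real.log y := hl0.le.trans (Real.log_le_log hx0 hxy)
        rw [lt_div_iff₀ (pow_pos hl0 r)] at hx
        have h3 := hX y ((le_max_left _ _).trans (hx1.trans hxy))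
        have hKp : 0 ≤ K := by
          by_contra hneg
          push Not at hneg
          have := mul_nonpos_of_nonpos_of_nonneg hneg.le (pow_nonneg hly0 r)
          linarith [Pool.Agent.W263.BSD.bsdProduct_pos (a := a) (b := b) y]
        have h4 : Real.log y ^ r ≤ 2 ^ r * Real.log x ^ r := by
          rw [← mul_pow]
          exact pow_le_pow_left₀ hly0 hlyx r
        have hT2 : 0 < T / 2 := by linarith
        calc Pool.Agent.W263.BSD.bsdProduct a b y ≤ K * Real.log y ^ r := h3
          _ ≤ K * (2 ^ r * Real.log x ^ r) := mul_le_mul_of_nonneg_left h4 hKp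
          _ = (2 ^ r * K / (T / 2)) * (T / 2 * Real.log x ^ r) := by field_simp
          _ ≤ (2 ^ r * K / (T / 2)) * Pool.Agent.W263.BSD.bsdProduct a b x :=
            mul_le_mul_of_nonneg_left hx.le (by positivity)
      obtain ⟨K', u0, hK', hu0, h1⟩ := Pool.Agent.W263.BSD.doubling_transfer hup
      obtain ⟨hconv, -⟩ := (Pool.Agent.W263.BSD.data 0 hF').order_of_upper
        (Pool.Agent.W263.BSD.hloc a b 0) (Pool.Agent.W263.BSD.eData a b).GG_bound
        (Pool.Agent.W263.BSD.ordZero hF' hr) hK' hu0 h1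
      have h2 := Pool.Agent.W263.BSD.coeff_real hF' hr hconv
      rw [h2]
      push_cast
      simp
    constructor
    · intro h
      have hCpos : 0 < √2 * Real.exp (ρ * Real.eulerMascheroniConstant) / B := by positivity
      have hs := slowAbove_of_tendsto hCpos h
      obtain ⟨h1, h2⟩ := exponent_unique hCpos hTpos h (hreal (hslow1 hs))
      refine ⟨h1, ?_, hs⟩
      rw [hcoef hs]
      rw [h1] at h2
      have h3 : ‖iteratedDeriv r F 1‖ / (r.factorial : ℝ) = B := by
        have he : 0 < √2 * Real.exp (r * Real.eulerMascheroniConstant) := by positivity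
        field_simp at h2
        rw [div_eq_iff hfac.ne']
        linarith
      rw [h3]
    · rintro ⟨h1, h2, h3⟩
      subst h1
      rw [hcoef h3] at h2
      have h4 : ‖iteratedDeriv r F 1‖ / (r.factorial : ℝ) = B := by exact_mod_cast h2
      have h5 := hreal (hslow1 h3)
      have h6 : √2 * Real.exp (r * Real.eulerMascheroniConstant) *
            ((r.factorial : ℝ) / ‖iteratedDeriv r F 1‖) =
          √2 * Real.exp (r * Real.eulerMascheroniConstant) / B := by
        rw [← h4]
        field_simp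
      rwa [h6] at h5

end Pool.Agent.Results.MP_92892c_nt.OneSidedSlowVariation
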