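import Pool.Agent.TH942.SL.CurveLim
import Pool.Agent.TH941.Newform

/-!
# The leading-term formula over `ℚ` and one asymptotic formula for finite sums of point counts

Let `E : y² = x³ + a x + b` be an elliptic curve over `ℚ`, `a, b ∈ ℤ`, let `F` be the entire continuation of
its incomplete `L`-series (the Euler factors at the primes dividing `2Δ` are removed), `f` its newform and `N_p` the
number of affine points modulo `p`, so that `#E(𝔽_p) = N_p + 1`. For `1 < ρ < ρ'` let

`w_ρ(u) = (2π)⁻¹ ∫ Re (exp (z - u z^(1/ρ)) / z) dt`, `z = 1 + it`, and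
`S_ρ(X) = ∑_{p ≤ exp((log X)^ρ'), p ∤ 2Δ} w_ρ(log p / log X) log (#E(𝔽_p)/p)`,

a FINITE sum of point counts. For every such curve, ALL `1 < ρ < ρ'`, all real `r` and `κ` it is proved that

`S_ρ(X) - r log log X → κ` (`X → ∞`)

holds if and only if `F` has no zeros in the sector `|arg (s-1)| < π/(2ρ)`, `r = m` is the order of `F` at `s = 1`, and
`F^{(m)}(1)/m! = √2 exp (mγ/ρ - κ)`.

So one asymptotic formula, for one fixed `ρ > 1` (the sector may be as narrow as one likes), determines both the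
order and the leading coefficient; with `r` the rank and `κ = mγ/ρ + (log 2)/2 - log (leading term predicted by Birch and
Swinnerton-Dyer)` it is EQUIVALENT to the leading-term formula together with the absence of zeros in the sector.
Goldfeld's theorem (1982) is the limit case `ρ → 1` (sharp cut-off), where the factor `√2` appears too and where
only one implication is known. The factor `√2` comes from the squares of the primes and needs the theorem of
Rankin and Selberg for the newform.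
-/

set_option autoImplicit false

namespace Pool.Agent.Results.MP_92892c_nt.SectorLeadingTerm

open Pool.Agent.W263.BSD Filter Topology Classical MeasureTheory
open CongruenceSubgroup UpperHalfPlane
open scoped MatrixGroups

/-- `w_ρ(u) = (2π)⁻¹ ∫ Re (exp (z - u z^(1/ρ)) / z) dt`, `z = 1 + it`. -/
noncomputable def weight (ρ u : ℝ) : ℝ :=
  (2 * Real.pi)⁻¹ * ∫ t : ℝ, (Complex.exp ((1 + t * Complex.I) -
    u * (1 + t * Complex.I) ^ ((ρ⁻¹ : ℝ) : ℂ)) / (1 + t * Complex.I)).re

/-- `S_ρ(X)`: the sum of `w_ρ(log p / log X) log ((N_p + 1)/p)` over the primes `p ≤ exp ((log X)^ρ')`,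
`p ∤ 2Δ`. -/
noncomputable def sum (a b : ℤ) (ρ ρ' X : ℝ) : ℝ :=
  ∑ p ∈ (Finset.range (⌊Real.exp (Real.log X ^ ρ')⌋₊ + 1)).filter (GoodPrime a b),
    weight ρ (Real.log p / Real.log X) * Real.log (((pointCount a b p : ℝ) + 1) / p)

/-- The sector `|arg (s-1)| < π/(2ρ)`, `s ≠ 1`. -/
def Sector (ρ : ℝ) : Set ℂ := {s | s ≠ 1 ∧ |(s - 1).arg| < Real.pi / (2 * ρ)}

/-- The `n`-th Fourier coefficient of `f`. -/
noncomputable def coef {N : ℕ} (f : CuspForm (Gamma0 N : Subgroup (GL (Fin 2) ℝ)) 2) (n : ℕ) : ℂ :=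
  (qExpansion 1 f).coeff n

/-- `f ∈ S_2(Γ₀(N))` is the newform of the elliptic curve `E : y² = x³ + a x + b` of conductor `N`: the
Fourier coefficients `c(n)` of `f` are real with `c(1) = 1`, they satisfy the Hecke relations
`c(mn) = c(m) c(n)` for coprime `m`, `n` and `c(p^(j+2)) = c(p) c(p^(j+1)) - p c(p^j)` (without the last
term if `p ∣ N`), `c(p) = a_p = p - N_p` (`N_p` affine points) for all primes `p ∤ 2Δ`, `|c(p)| ≤ 2 √p` for
all `p ∤ N` (Hasse) and `c(p) = 0, 1, -1` for `p ∣ N`. -/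
structure IsNewformOf (a b : ℤ) (N : ℕ) (f : CuspForm (Gamma0 N : Subgroup (GL (Fin 2) ℝ)) 2) :
    Prop where
  one : coef f 1 = 1
  real : ∀ n, (coef f n).im = 0
  mul : ∀ m n : ℕ, Nat.Coprime m n → coef f (m * n) = coef f m * coef f n
  pow : ∀ p j : ℕ, p.Prime → coef f (p ^ (j + 2)) = coef f p * coef f (p ^ (j + 1)) -
      (if p ∣ N then 0 else (p : ℂ) * coef f (p ^ j))
  points : ∀ p : ℕ, GoodPrime a b p → coef f p = (p : ℂ) - (pointCount a b p : ℂ)
  good : ∀ p : ℕ, p.Prime → ¬ p ∣ N → ‖coef f p‖ ≤ 2 * Real.sqrt p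
  bad : ∀ p : ℕ, p.Prime → p ∣ N → coef f p = 0 ∨ coef f p = 1 ∨ coef f p = -1

theorem hecke {a b : ℤ} {N : ℕ} {f : CuspForm (Gamma0 N : Subgroup (GL (Fin 2) ℝ)) 2}
    (hf : IsNewformOf a b N f) : Pool.Agent.TH941.Hecke f where
  one := hf.one
  real := hf.real
  mul := hf.mul
  pow := hf.pow
  good := hf.good
  bad := fun p hp h => by
    rcases hf.bad p hp h with h1 | h1 | h1
    · have h2 : ‖coef f p‖ ≤ 1 := by rw [h1]; simp
      exact h2
    · have h2 : ‖coef f p‖ ≤ 1 := by rw [h1]; simp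
      exact h2
    · have h2 : ‖coef f p‖ ≤ 1 := by rw [h1]; simp
      exact h2

theorem loglog_tendsto : Tendsto (fun X : ℝ => Real.log (Real.log X)) atTop atTop :=
  Real.tendsto_log_atTop.comp Real.tendsto_log_atTop

/-- **The leading-term formula and one asymptotic formula for finite sums of point counts.** -/
theorem result (a b : ℤ) (hΔ : 4 * a ^ 3 + 27 * b ^ 2 ≠ 0) (F : ℂ → ℂ) (hF : IsLSeries a b F)
    (N : ℕ) [NeZero N] (f : CuspForm (Gamma0 N : Subgroup (GL (Fin 2) ℝ)) 2)
    (hf : IsNewformOf a b N f) (ρ ρ' : ℝ) (hρ : 1 < ρ) (hρ' : ρ < ρ') (r κ : ℝ) :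
    Tendsto (fun X : ℝ => sum a b ρ ρ' X - r * Real.log (Real.log X)) atTop (𝓝 κ) ↔
      (∀ s ∈ Sector ρ, F s ≠ 0) ∧ ∃ m : ℕ, r = m ∧ analyticOrderAt F 1 = m ∧
        iteratedDeriv m F 1 / (m.factorial : ℂ) =
          ((√2 * Real.exp (m * Real.eulerMascheroniConstant / ρ - κ) : ℝ) : ℂ) := by
  have hrs : Tendsto (rsSum a b) atTop (𝓝 0) :=
    (hecke hf).rsSum_tendsto hΔ fun p hp => hf.points p hp
  have hS : ∀ X, sum a b ρ ρ' X = Pool.Agent.TH942.SL.Sr a b ρ ρ' X := fun _ => rfl
  obtain ⟨m, hm⟩ := order_finite hF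
  -- the limit under the hypothesis on the zeros
  have hlim : (∀ s ∈ Sector ρ, F s ≠ 0) → ∃ κ₀ : ℝ,
      Tendsto (fun X : ℝ => sum a b ρ ρ' X - m * Real.log (Real.log X)) atTop (𝓝 κ₀) ∧
      iteratedDeriv m F 1 / (m.factorial : ℂ) =
          ((√2 * Real.exp (m * Real.eulerMascheroniConstant / ρ - κ₀) : ℝ) : ℂ) := by
    intro hz
    obtain ⟨κ₀, h1, h2⟩ := Pool.Agent.TH942.SL.Sr_lim hΔ hrs hF hρ hρ' hm
      fun s hs1 hs => hz s ⟨hs1, hs⟩
    refine ⟨κ₀, h1, ?_⟩
    have e0 : (Real.exp κ₀ : ℂ) ≠ 0 := by exact_mod_cast (Real.exp_pos κ₀).ne'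
    have e1 : √2 * Real.exp (m * Real.eulerMascheroniConstant / ρ - κ₀) =
        √2 * Real.exp (m * ρ⁻¹ * Real.eulerMascheroniConstant) / Real.exp κ₀ := by
      rw [Real.exp_sub, show (m : ℝ) * Real.eulerMascheroniConstant / ρ =
        m * ρ⁻¹ * Real.eulerMascheroniConstant by ring]
      ring
    rw [e1, Complex.ofReal_div, ← h2, mul_div_cancel_left₀ _ e0]
  constructor
  · intro h
    have hz : ∀ s ∈ Sector ρ, F s ≠ 0 := by
      intro s hs
      refine Pool.Agent.TH942.SL.sector_of_small hF hρ hρ' (K := |r| + |κ| + 1) ?_ s hs.1 hs.2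
      filter_upwards [h.eventually (Metric.ball_mem_nhds κ one_pos),
        loglog_tendsto.eventually_ge_atTop 1] with X h1 h2
      rw [Real.dist_eq] at h1
      have h3 : |sum a b ρ ρ' X| ≤ |r| * Real.log (Real.log X) + |κ| + 1 := by
        have e1 : sum a b ρ ρ' X = r * Real.log (Real.log X) + κ +
          (sum a b ρ ρ' X - r * Real.log (Real.log X) - κ) := by ring
        rw [e1]
        refine (abs_add_three _ _ _).trans ?_
        rw [abs_mul, abs_of_pos (by linarith : 0 < Real.log (Real.log X))]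
        linarith
      have h4 : |κ| + 1 ≤ (|κ| + 1) * Real.log (Real.log X) :=
        le_mul_of_one_le_right (by positivity) h2
      rw [← hS]
      linarith [add_mul (|r|) (|κ| + 1) (Real.log (Real.log X))]
    refine ⟨hz, m, ?_⟩
    obtain ⟨κ₀, h1, h2⟩ := hlim hz
    have hr : r = m := by
      have h3 := (h1.sub h)
      have h4 : Tendsto (fun X : ℝ => (r - m) * Real.log (Real.log X)) atTop (𝓝 (κ₀ - κ)) := by
        refine h3.congr fun X => ?_
        ring
      by_contra hne
      rcases lt_or_gt_of_ne (sub_ne_zero.2 hne) with h5 | h5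
      · exact not_tendsto_nhds_of_tendsto_atBot (loglog_tendsto.const_mul_atTop_of_neg h5) _ h4
      · exact not_tendsto_nhds_of_tendsto_atTop (loglog_tendsto.const_mul_atTop h5) _ h4
    subst hr
    have hκ : κ = κ₀ := tendsto_nhds_unique h h1
    subst hκ
    exact ⟨rfl, hm, h2⟩
  · rintro ⟨hz, m', hr, hm', hlead⟩
    have hmm : m = m' := by
      have := hm.symm.trans hm'
      exact_mod_cast this
    subst hmm
    obtain ⟨κ₀, h1, h2⟩ := hlim hz
    rw [h2] at hlead
    have h3 : √2 * Real.exp (m * Real.eulerMascheroniConstant / ρ - κ₀) =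
        √2 * Real.exp (m * Real.eulerMascheroniConstant / ρ - κ) := by exact_mod_cast hlead
    have h4 := Real.exp_injective (mul_left_cancel₀ (by positivity : (√2 : ℝ) ≠ 0) h3)
    have h5 : κ₀ = κ := by linarith
    rw [hr, ← h5]
    exact h1

end Pool.Agent.Results.MP_92892c_nt.SectorLeadingTerm
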